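import Mathlib
import Pool.Agent.Run7.h257.NP.Main
import Pool.Agent.Run7.h213.NP.CNT

/-!
# Indivisible values `L(χ, 0)`: the exponent two thirds

There are absolute constants `c > 0` and `Q` such that for all primes `q ≥ Q`, all odd primes `p` not
dividing `q (q - 1)` and all maximal ideals `P` above `p` of the ring of all algebraic integers at least
`c q^(2/3) / log q` odd Dirichlet characters `χ` modulo `q` have `L(χ, 0)` indivisible by `P`.

Proof (`Pool/Agent/Run7/h257/NP`): by Fourier inversion over the residue field `k` the number of these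
characters is at least the dimension minus one of the span of the functions `x ↦ u(n x)`,
`1 ≤ n < q`, where `u(x) ∈ k` is the residue of `x` in `[1, q)`.  The functional
`g ↦ g(y) - g(y - 1) - g(1)` takes the value `-q E_n(y)` at `u(n ·)`, where `E_n(y)` is the number of
multiples of `q` in `(n (y - 1), n y]`.  If `n h = q + b m` with `1 ≤ b, m < h` and `h^2 ≤ q`, then there
is a `y ≡ h / b` modulo `q` with `E_n(y) = 1` and `E_{n'}(y) = 0` for all `n' < n`, so the functions
`u(n ·)` for these `n` are linearly independent, and there are at least `c q^(2/3) / log q` such `n`.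
-/

set_option autoImplicit false

namespace Pool.Agent.Results.MP_53226a_nt.ExponentTwoThirds

theorem result :
    ∃ c : ℝ, 0 < c ∧ ∃ Q : ℕ, ∀ q : ℕ, q.Prime → Q ≤ q →
      ∀ p : ℕ, p.Prime → p ≠ 2 → p ≠ q → ¬ p ∣ q - 1 →
        ∀ P : Ideal (integralClosure ℤ ℂ), P.IsMaximal →
          ((p : integralClosure ℤ ℂ) ∈ P) →
            c * (q : ℝ) ^ ((2 : ℝ) / 3) / Real.log q ≤
              (({χ : DirichletCharacter ℂ q |
                  χ (-1 : ZMod q) = -1 ∧
                  ∃ a b : integralClosure ℤ ℂ, a ∉ P ∧ b ∉ P ∧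
                    (b : ℂ) * (-(1 / (q : ℂ)) *
                      ∑ k ∈ Finset.Ico 1 q, (k : ℂ) * χ (k : ZMod q)) = (a : ℂ)}
                : Set (DirichletCharacter ℂ q)).ncard : ℝ) :=
  Run7.h257.NP.main_of Run7.h213.NP.t_CNT

end Pool.Agent.Results.MP_53226a_nt.ExponentTwoThirds
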